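import Pool.Agent.helper24.CG.Spec2

/-!
# Rows cg, row ALG2 (algebra, uniform in `b`)
-/

set_option autoImplicit false

namespace Pool.Agent.helper24.CG

/-- first alternative, normalised -/
private theorem ALG2_one (Y K a κ G : ℝ) (hK : 1 ≤ K) (ha : a ≤ 1 / K) (hκ : κ ≤ 44 / K ^ 3)
    (hG1 : 1 / K ^ 2 ≤ G) (hG2 : G ≤ 1 / K) (h : G * (Y - G / 2 - a / 2) ≤ G + κ) :
    Y ≤ 1 + 45 / K := by
  have hK0 : 0 < K := by linarith
  have hG : 0 < G := lt_of_lt_of_le (by positivity) hG1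
  have h1 : κ ≤ 44 / K * G := by
    calc κ ≤ 44 / K ^ 3 := hκ
      _ = 44 / K * (1 / K ^ 2) := by field_simp
      _ ≤ 44 / K * G := mul_le_mul_of_nonneg_left hG1 (by positivity)
  have h2 : Y - G / 2 - a / 2 ≤ 1 + 44 / K := by
    have h3 : G * (Y - G / 2 - a / 2) ≤ G * (1 + 44 / K) := by
      calc G * (Y - G / 2 - a / 2) ≤ G + κ := h
        _ ≤ G + 44 / K * G := by linarith
        _ = G * (1 + 44 / K) := by ring
    exact le_of_mul_le_mul_left h3 hG
  have e1 : 1 + 45 / K = 1 + 44 / K + 1 / K / 2 + 1 / K / 2 := by ring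
  rw [e1]
  linarith

/-- second alternative, normalised -/
private theorem ALG2_two (Y K a κ G ϱ e E : ℝ) (hK : 1 ≤ K) (ha : a ≤ 1 / K ^ 2)
    (hκ : κ ≤ 44 / K ^ 3) (hϱ0 : 0 ≤ ϱ) (hϱ : ϱ ≤ 20) (hE : 0 ≤ E) (he : e ≤ E / K ^ 2)
    (hG1 : 1 / K < G) (h : G * (Y - G) + ϱ * (G * (G - a) / 2 - e) ≤ G + κ) :
    (Y - G) + ϱ * (G / 2) ≤ 1 + (54 + 20 * E) / K := by
  have hK0 : 0 < K := by linarith
  have hG : 0 < G := lt_of_le_of_lt (by positivity) hG1
  have hKK : 1 / K ^ 2 ≤ 1 / K := by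
    apply one_div_le_one_div_of_le hK0
    nlinarith
  have h1 : κ ≤ 44 / K * G := by
    calc κ ≤ 44 / K ^ 3 := hκ
      _ = 44 / K * (1 / K ^ 2) := by field_simp
      _ ≤ 44 / K * G := mul_le_mul_of_nonneg_left (hKK.trans hG1.le) (by positivity)
  have h2 : ϱ * e ≤ 20 * E / K * G := by
    calc ϱ * e ≤ ϱ * (E / K ^ 2) := mul_le_mul_of_nonneg_left he hϱ0
      _ ≤ 20 * (E / K ^ 2) := mul_le_mul_of_nonneg_right hϱ (by positivity)
      _ = 20 * E / K * (1 / K) := by field_simp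
      _ ≤ 20 * E / K * G := mul_le_mul_of_nonneg_left hG1.le (by positivity)
  have h3 : (Y - G) + ϱ * ((G - a) / 2) ≤ 1 + 44 / K + 20 * E / K := by
    have h4 : G * ((Y - G) + ϱ * ((G - a) / 2)) ≤ G * (1 + 44 / K + 20 * E / K) := by
      calc G * ((Y - G) + ϱ * ((G - a) / 2))
          = (G * (Y - G) + ϱ * (G * (G - a) / 2 - e)) + ϱ * e := by ring
        _ ≤ (G + κ) + ϱ * e := by linarith
        _ ≤ (G + 44 / K * G) + 20 * E / K * G := by linarith
        _ = G * (1 + 44 / K + 20 * E / K) := by ring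
    exact le_of_mul_le_mul_left h4 hG
  have h5 : ϱ * (a / 2) ≤ 10 / K := by
    calc ϱ * (a / 2) ≤ ϱ * (1 / K / 2) := by
          apply mul_le_mul_of_nonneg_left _ hϱ0
          linarith
      _ ≤ 20 * (1 / K / 2) := mul_le_mul_of_nonneg_right hϱ (by positivity)
      _ = 10 / K := by ring
  have e1 : (Y - G) + ϱ * (G / 2) = ((Y - G) + ϱ * ((G - a) / 2)) + ϱ * (a / 2) := by ring
  have e2 : 1 + (54 + 20 * E) / K = (1 + 44 / K + 20 * E / K) + 10 / K := by ring
  rw [e1, e2]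
  linarith

/-- the logarithmic inequality for `b ≥ 3` -/
private theorem ALG2_log (b : ℝ) (hb : 3 ≤ b) :
    2 * Real.log (1 + b) ≤ 20 * Real.log (1 + b * (1 / 20)) := by
  have h1 : 1 + b ≤ (1 + b * (1 / 20)) ^ 10 := by
    have h2 : 1 + (10 : ℕ) * ((b - 3) / 23) ≤ (1 + (b - 3) / 23) ^ 10 :=
      one_add_mul_le_pow (by linarith) 10
    have h3 : 1 + b * (1 / 20) = 23 / 20 * (1 + (b - 3) / 23) := by ring
    rw [h3, mul_pow]
    have h4 : (4 : ℝ) ≤ (23 / 20 : ℝ) ^ 10 := by norm_num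
    have h5 : (0 : ℝ) ≤ (1 + (b - 3) / 23) ^ 10 := by
      have : 0 ≤ (b - 3) / 23 := div_nonneg (by linarith) (by norm_num)
      positivity
    push_cast at h2
    calc 1 + b ≤ 4 * (1 + 10 * ((b - 3) / 23)) := by linarith
      _ ≤ 4 * (1 + (b - 3) / 23) ^ 10 := by linarith
      _ ≤ (23 / 20) ^ 10 * (1 + (b - 3) / 23) ^ 10 := mul_le_mul_of_nonneg_right h4 h5
  have h6 : Real.log (1 + b) ≤ Real.log ((1 + b * (1 / 20)) ^ 10) :=
    Real.log_le_log (by linarith) h1
  rw [Real.log_pow] at h6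
  push_cast at h6
  linarith

theorem ALG2 : ALG2_stmt := by
  refine ⟨13100, by norm_num, ?_⟩
  intro b k m q ℓ x Rr δ hb hk hkm hℓ hx hq1 hq2 hR0 hR hδ1 hδ2 hyp1 hyp2
  have hb1 : (1 : ℝ) ≤ (b : ℝ) := by exact_mod_cast hb
  have hb0 : (0 : ℝ) < (b : ℝ) := by linarith
  have hK : (1 : ℝ) ≤ (k : ℝ) := by exact_mod_cast hk
  have hmK : (k : ℝ) ^ 9 ≤ (m : ℝ) := by exact_mod_cast hkm
  have hlam2 : (1 : ℝ) / 2 ≤ Real.log (1 + (b : ℝ)) := by
    have h1 : Real.log 2 ≤ Real.log (1 + (b : ℝ)) := Real.log_le_log (by norm_num) (by linarith)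
    have h2 := Real.log_two_gt_d9
    linarith
  have hlamb : Real.log (1 + (b : ℝ)) ≤ b := by
    have := Real.log_le_sub_one_of_pos (show (0 : ℝ) < 1 + b by linarith)
    linarith
  -- the ratio
  have hϱ : ∃ ϱ : ℝ, Real.log (1 + (b : ℝ) * δ) / δ = ϱ * Real.log (1 + b) ∧ 0 ≤ ϱ ∧ ϱ ≤ 20 ∧
      ((b ≤ 2 ∧ (b : ℝ) / Real.log (1 + b) * (1 - 1 / (2 * k)) ≤ ϱ ∧
        (b : ℝ) / Real.log (1 + b) ≤ 4) ∨ 2 ≤ ϱ) ∧ 0 < δ ∧
        1 / δ ≤ 20 * (k : ℝ) := by
    have hlam0 : 0 < Real.log (1 + (b : ℝ)) := by linarith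
    rcases Nat.lt_or_ge 2 b with h3 | h2
    · have hδ := hδ2 h3
      have hb3 : (3 : ℝ) ≤ b := by exact_mod_cast h3
      rw [hδ]
      have h4 := ALG2_log b hb3
      have h5 : Real.log (1 + (b : ℝ) * (1 / 20)) ≤ Real.log (1 + b) :=
        Real.log_le_log (by positivity) (by linarith)
      refine ⟨20 * Real.log (1 + (b : ℝ) * (1 / 20)) / Real.log (1 + b), ?_, ?_, ?_, Or.inr ?_,
        by norm_num, ?_⟩
      · field_simp
      · have h6 : 0 ≤ Real.log (1 + (b : ℝ) * (1 / 20)) := Real.log_nonneg (by linarith)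
        positivity
      · rw [div_le_iff₀ hlam0]
        linarith
      · rw [le_div_iff₀ hlam0]
        linarith
      · norm_num
        linarith
    · have hδ := hδ1 h2
      have hb2 : (b : ℝ) ≤ 2 := by exact_mod_cast h2
      have hk0 : (0 : ℝ) < k := by linarith
      have e1 : 1 + (b : ℝ) * ((b : ℝ) * k)⁻¹ = 1 + 1 / (k : ℝ) := by
        field_simp
      have l1 : Real.log (1 + 1 / (k : ℝ)) ≤ 1 / k := by
        have := Real.log_le_sub_one_of_pos (show (0 : ℝ) < 1 + 1 / k by positivity)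
        linarith
      have l2 : 2 / (2 * (k : ℝ) + 1) ≤ Real.log (1 + 1 / (k : ℝ)) := by
        have h1 := Real.le_log_one_add_of_nonneg (show (0 : ℝ) ≤ 1 / k by positivity)
        have h2 : 2 * (1 / (k : ℝ)) / (1 / k + 2) = 2 / (2 * (k : ℝ) + 1) := by
          field_simp
          ring
        rw [h2] at h1
        exact h1
      rw [hδ, e1]
      refine ⟨(b : ℝ) * k * Real.log (1 + 1 / (k : ℝ)) / Real.log (1 + b), ?_, ?_, ?_,
        Or.inl ⟨h2, ?_, ?_⟩, by positivity, ?_⟩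
      · field_simp
      · have h6 : 0 ≤ Real.log (1 + 1 / (k : ℝ)) := Real.log_nonneg (by
          have : 0 ≤ 1 / (k : ℝ) := by positivity
          linarith)
        positivity
      · rw [div_le_iff₀ hlam0]
        have h7 : (b : ℝ) * k * Real.log (1 + 1 / (k : ℝ)) ≤ b * k * (1 / k) :=
          mul_le_mul_of_nonneg_left l1 (by positivity)
        have h8 : (b : ℝ) * k * (1 / k) = b := by field_simp
        linarith
      · have h9 : (b : ℝ) / Real.log (1 + b) * (1 - 1 / (2 * k)) =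
            (b * (1 - 1 / (2 * k))) / Real.log (1 + b) := by ring
        rw [h9]
        apply div_le_div_of_nonneg_right _ hlam0.le
        rw [mul_assoc]
        apply mul_le_mul_of_nonneg_left _ hb0.le
        have h10 : (k : ℝ) * (2 / (2 * (k : ℝ) + 1)) ≤ k * Real.log (1 + 1 / (k : ℝ)) :=
          mul_le_mul_of_nonneg_left l2 hk0.le
        refine le_trans ?_ h10
        have h11 : (k : ℝ) * (2 / (2 * (k : ℝ) + 1)) = 1 - 1 / (2 * k + 1) := by
          field_simp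
          ring
        rw [h11]
        have h12 : 1 / (2 * (k : ℝ) + 1) ≤ 1 / (2 * k) :=
          one_div_le_one_div_of_le (by positivity) (by linarith)
        linarith
      · rw [div_le_iff₀ hlam0]
        linarith
      · rw [one_div, inv_inv]
        nlinarith
  obtain ⟨ϱ, hϱe, hϱ0, hϱ20, hϱc, hδ0, hδk⟩ := hϱ
  rw [hϱe] at hyp2
  have hM1 : 1 ≤ max (2 / (b : ℝ)) (1 / Real.log (1 + b)) * Real.log (1 + b) := by
    have hlam0 : 0 < Real.log (1 + (b : ℝ)) := by linarith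
    calc (1 : ℝ) = 1 / Real.log (1 + b) * Real.log (1 + b) := by field_simp
      _ ≤ max (2 / (b : ℝ)) (1 / Real.log (1 + b)) * Real.log (1 + b) :=
          mul_le_mul_of_nonneg_right (le_max_right _ _) hlam0.le
  have hM2 : 1 ≤ max (2 / (b : ℝ)) (1 / Real.log (1 + b)) * ((b : ℝ) / 2) := by
    calc (1 : ℝ) = 2 / (b : ℝ) * ((b : ℝ) / 2) := by field_simp
      _ ≤ max (2 / (b : ℝ)) (1 / Real.log (1 + b)) * ((b : ℝ) / 2) :=
          mul_le_mul_of_nonneg_right (le_max_left _ _) (by positivity)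
  have hM : 0 < max (2 / (b : ℝ)) (1 / Real.log (1 + b)) :=
    lt_of_lt_of_le (by positivity) (le_max_left _ _)
  have hcast : (((k ^ 3 : ℕ) : ℝ)) = (k : ℝ) ^ 3 := by push_cast; rfl
  rw [hcast] at hyp2
  generalize max (2 / (b : ℝ)) (1 / Real.log (1 + b)) = M at hM1 hM2 hM ⊢
  generalize Real.log (1 + (b : ℝ)) = lam at *
  generalize hβ : (b : ℝ) = β at *
  generalize (k : ℝ) = K at *
  have hm1 : (1 : ℝ) ≤ (m : ℝ) := (one_le_pow₀ hK).trans hmK
  generalize (m : ℝ) = μ at *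
  have hK0 : 0 < K := by linarith
  have hμ : 0 < μ := by linarith
  have hlam : 0 < lam := by linarith
  have hKsq : K ≤ K ^ 2 := le_self_pow₀ hK (by norm_num)
  have hℓβ : 10 * K ^ 2 * lam ≤ ℓ := by
    have h1 : K ^ 2 * lam ≤ K ^ 2 * (1 + β) :=
      mul_le_mul_of_nonneg_left (by linarith) (sq_nonneg K)
    linarith
  have hℓ1 : 1 ≤ ℓ := by
    have h1 : 1 ≤ K ^ 2 := one_le_pow₀ hK
    have h2 : 1 * (1 + β) ≤ K ^ 2 * (1 + β) := mul_le_mul_of_nonneg_right h1 (by linarith)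
    linarith
  have hℓ0 : 0 < ℓ := by linarith
  obtain ⟨A, hAdef⟩ : ∃ A, A = μ * ℓ := ⟨_, rfl⟩
  have hA0 : 0 < A := by rw [hAdef]; positivity
  have hℓA : ℓ ≤ A := by rw [hAdef]; exact le_mul_of_one_le_left hℓ0.le hm1
  obtain ⟨a, hadef⟩ : ∃ a, a = lam / A := ⟨_, rfl⟩
  have ha : a ≤ 1 / K ^ 2 := by
    rw [hadef, div_le_div_iff₀ hA0 (by positivity)]
    have h1 : 0 ≤ K ^ 2 * lam := by positivity
    have h2 : lam * K ^ 2 = K ^ 2 * lam := mul_comm _ _
    rw [h2, one_mul]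
    linarith
  have hKK : 1 / K ^ 2 ≤ 1 / K := one_div_le_one_div_of_le hK0 hKsq
  have ha1 : a ≤ 1 := by
    have : 1 / K ≤ 1 := by
      rw [div_le_one hK0]
      exact hK
    linarith
  obtain ⟨Y, hYdef⟩ : ∃ Y, Y = lam * q / A := ⟨_, rfl⟩
  have hq : q = Y * A / lam := by rw [hYdef]; field_simp
  obtain ⟨κ, hκdef⟩ : ∃ κ, κ = lam * Rr / (A * ℓ) := ⟨_, rfl⟩
  have hRr : Rr = κ * (A * ℓ) / lam := by rw [hκdef]; field_simp
  have hD : 0 < A * ℓ / lam := by positivity
  have hxY : lam * x ≤ Y := by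
    rw [hYdef, le_div_iff₀ hA0]
    calc lam * x * A = lam * (x * μ * ℓ) := by rw [hAdef]; ring
      _ ≤ lam * q := mul_le_mul_of_nonneg_left hq1 hlam.le
  have hY0 : 0 < Y := lt_of_lt_of_le (by positivity) hxY
  have hκ : κ ≤ 4 * Y / K ^ 3 := by
    have h1 : κ ≤ 4 * (lam * x) / K ^ 3 := by
      rw [hκdef, div_le_iff₀ (by positivity)]
      calc lam * Rr ≤ lam * (4 * x / K ^ 3 * μ * ℓ ^ 2) := mul_le_mul_of_nonneg_left hR hlam.le
        _ = 4 * (lam * x) / K ^ 3 * (A * ℓ) := by rw [hAdef]; ring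
    refine h1.trans ?_
    apply div_le_div_of_nonneg_right _ (by positivity)
    linarith
  have hK3 : 1 ≤ K ^ 3 := one_le_pow₀ hK
  have hκ4 : κ ≤ 4 * Y := by
    calc κ ≤ 4 * Y / K ^ 3 := hκ
      _ ≤ 4 * Y / 1 := div_le_div_of_nonneg_left (by positivity) one_pos hK3
      _ = 4 * Y := by ring
  have hY11 : Y ≤ 11 := by
    have e1 : lam / μ * (q * (q - 1) / 2) = (A * ℓ / lam) * (Y * ((Y - a) / 2)) := by
      rw [hq, hadef, hAdef]
      field_simp
    have e2 : q * ℓ + Rr = (A * ℓ / lam) * (Y + κ) := by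
      rw [hq, hRr]
      field_simp
    rw [e1, e2] at hyp1
    have h1 := le_of_mul_le_mul_left hyp1 hD
    have h2 : Y * ((Y - a) / 2) ≤ Y * 5 := by linarith
    have h3 := le_of_mul_le_mul_left h2 hY0
    linarith
  have hκY : κ ≤ 44 / K ^ 3 := by
    refine hκ.trans ?_
    apply div_le_div_of_nonneg_right _ (by positivity)
    linarith
  -- it is enough to bound `Y`
  have goal : Y ≤ M * lam * (1 + 13100 / K) → x ≤ M * (1 + 13100 / K) := by
    intro h1
    have h2 : lam * x ≤ lam * (M * (1 + 13100 / K)) := by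
      calc lam * x ≤ Y := hxY
        _ ≤ M * lam * (1 + 13100 / K) := h1
        _ = lam * (M * (1 + 13100 / K)) := by ring
    exact le_of_mul_le_mul_left h2 hlam
  apply goal
  rcases hyp2 with ⟨γ, hγ1, hγ2, hγ⟩ | ⟨γ, hγ1, hγ2, hγ⟩
  · obtain ⟨G, hGdef⟩ : ∃ G, G = lam * γ / A := ⟨_, rfl⟩
    have hγg : γ = G * A / lam := by rw [hGdef]; field_simp
    have hG1 : 1 / K ^ 2 ≤ G := by
      rw [hGdef, le_div_iff₀ hA0]
      calc 1 / K ^ 2 * A = lam * (μ * ℓ / (K ^ 2 * lam)) := by rw [hAdef]; field_simp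
        _ ≤ lam * γ := mul_le_mul_of_nonneg_left hγ1 hlam.le
    have hG2 : G ≤ 1 / K := by
      rw [hGdef, div_le_iff₀ hA0]
      calc lam * γ ≤ lam * (μ * ℓ / (K * lam)) := mul_le_mul_of_nonneg_left hγ2 hlam.le
        _ = 1 / K * A := by rw [hAdef]; field_simp
    have e1 : lam / μ * (γ * (q - γ / 2 - 1 / 2)) =
        (A * ℓ / lam) * (G * (Y - G / 2 - a / 2)) := by
      rw [hq, hγg, hadef, hAdef]
      field_simp
    have e2 : γ * ℓ + Rr = (A * ℓ / lam) * (G + κ) := by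
      rw [hγg, hRr]
      field_simp
    rw [e1, e2] at hγ
    have h1 := le_of_mul_le_mul_left hγ hD
    have h2 := ALG2_one Y K a κ G hK (ha.trans hKK) hκY hG1 hG2 h1
    have h3 : 1 + 45 / K ≤ 1 + 13100 / K := by
      have : 45 / K ≤ 13100 / K := div_le_div_of_nonneg_right (by norm_num) hK0.le
      linarith
    have h4 : 1 * (1 + 13100 / K) ≤ M * lam * (1 + 13100 / K) :=
      mul_le_mul_of_nonneg_right hM1 (by positivity)
    linarith
  · obtain ⟨G, hGdef⟩ : ∃ G, G = lam * γ / A := ⟨_, rfl⟩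
    have hγg : γ = G * A / lam := by rw [hGdef]; field_simp
    have hG1 : 1 / K < G := by
      rw [hGdef, lt_div_iff₀ hA0]
      calc 1 / K * A = lam * (μ * ℓ / (K * lam)) := by rw [hAdef]; field_simp
        _ < lam * γ := mul_lt_mul_of_pos_left hγ1 hlam
    have hG0 : 0 < G := lt_of_le_of_lt (by positivity) hG1
    have hG2 : G ≤ Y := by
      rw [hGdef, hYdef]
      exact div_le_div_of_nonneg_right (mul_le_mul_of_nonneg_left hγ2 hlam.le) hA0.le
    obtain ⟨e, hedef⟩ : ∃ e, e = Y ^ 2 * K ^ 6 / (4 * δ * μ) + lam ^ 2 * μ / A ^ 2 +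
        (1 / K ^ 2 + κ) := ⟨_, rfl⟩
    have he : e ≤ 651 / K ^ 2 := by
      have s1 : Y ^ 2 * K ^ 6 / (4 * δ * μ) ≤ 605 / K ^ 2 := by
        have t1 : Y ^ 2 ≤ 121 := by
          have h1 := pow_le_pow_left₀ hY0.le hY11 2
          norm_num at h1
          exact h1
        have t2 : Y ^ 2 * K ^ 6 / (4 * δ * μ) = Y ^ 2 * (1 / δ) * K ^ 6 / (4 * μ) := by
          field_simp
        rw [t2, div_le_div_iff₀ (by positivity) (by positivity)]
        have t3 : Y ^ 2 * (1 / δ) ≤ 121 * (20 * K) :=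
          mul_le_mul t1 hδk (by positivity) (by norm_num)
        calc Y ^ 2 * (1 / δ) * K ^ 6 * K ^ 2 = Y ^ 2 * (1 / δ) * (K ^ 6 * K ^ 2) := by ring
          _ ≤ 121 * (20 * K) * (K ^ 6 * K ^ 2) := mul_le_mul_of_nonneg_right t3 (by positivity)
          _ = 2420 * K ^ 9 := by ring
          _ ≤ 2420 * μ := by linarith
          _ = 605 * (4 * μ) := by ring
      have s2 : lam ^ 2 * μ / A ^ 2 ≤ 1 / K ^ 2 := by
        rw [div_le_div_iff₀ (by positivity) (by positivity)]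
        have t1 : K * lam ≤ ℓ := by
          have h1 : K ≤ 10 * K ^ 2 := by linarith
          have h2 : K * lam ≤ 10 * K ^ 2 * lam := mul_le_mul_of_nonneg_right h1 hlam.le
          linarith
        have t2 : (K * lam) ^ 2 ≤ ℓ ^ 2 := pow_le_pow_left₀ (by positivity) t1 2
        calc lam ^ 2 * μ * K ^ 2 = (K * lam) ^ 2 * μ := by ring
          _ ≤ ℓ ^ 2 * μ := mul_le_mul_of_nonneg_right t2 hμ.le
          _ ≤ ℓ ^ 2 * (μ * μ) := by
              apply mul_le_mul_of_nonneg_left _ (by positivity)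
              exact le_mul_of_one_le_left hμ.le hm1
          _ = 1 * A ^ 2 := by rw [hAdef]; ring
      have s3 : κ ≤ 44 / K ^ 2 := by
        refine hκY.trans ?_
        apply div_le_div_of_nonneg_left (by norm_num) (by positivity)
        exact pow_le_pow_right₀ hK (by norm_num)
      calc e = Y ^ 2 * K ^ 6 / (4 * δ * μ) + lam ^ 2 * μ / A ^ 2 + (1 / K ^ 2 + κ) := hedef
        _ ≤ 605 / K ^ 2 + 1 / K ^ 2 + (1 / K ^ 2 + 44 / K ^ 2) := by linarith
        _ = 651 / K ^ 2 := by ring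
    have e1 : lam / μ * (γ * (q - γ)) +
        ϱ * lam / μ * (γ * (γ - 1) / 2 -
          (q ^ 2 * (K ^ 3) ^ 2 / (4 * δ * μ) + μ +
            (μ * ℓ / (K ^ 2 * lam) * ℓ + Rr) * μ / lam)) =
        (A * ℓ / lam) * (G * (Y - G) + ϱ * (G * (G - a) / 2 - e)) := by
      rw [hedef, hq, hγg, hRr, hadef, hAdef]
      field_simp
    have e2 : γ * ℓ + Rr = (A * ℓ / lam) * (G + κ) := by
      rw [hγg, hRr]
      field_simp
    rw [e1, e2] at hγ
    have h1 := le_of_mul_le_mul_left hγ hD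
    have h2 := ALG2_two Y K a κ G ϱ e 651 hK ha hκY hϱ0 hϱ20 (by norm_num) he hG1 h1
    rcases hϱc with ⟨_, hc1, hc2⟩ | hc
    · -- small `b`
      have t1 : β / lam * (G / 2) ≤ ϱ * (G / 2) + 11 / K := by
        have u1 : β / lam * (1 - 1 / (2 * K)) * (G / 2) ≤ ϱ * (G / 2) :=
          mul_le_mul_of_nonneg_right hc1 (by positivity)
        have u2 : β / lam * (1 / (2 * K)) * (G / 2) ≤ 11 / K := by
          have v1 : β / lam * (1 / (2 * K)) * (G / 2) = (β / lam) * G * (1 / (4 * K)) := by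
            field_simp
            ring
          have v2 : (β / lam) * G ≤ 4 * 11 :=
            mul_le_mul hc2 (hG2.trans hY11) hG0.le (by norm_num)
          rw [v1]
          calc (β / lam) * G * (1 / (4 * K)) ≤ 4 * 11 * (1 / (4 * K)) :=
                mul_le_mul_of_nonneg_right v2 (by positivity)
            _ = 11 / K := by field_simp
        have u3 : β / lam * (G / 2) = β / lam * (1 - 1 / (2 * K)) * (G / 2) +
            β / lam * (1 / (2 * K)) * (G / 2) := by ring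
        linarith
      have t2 : (Y - G) + β / lam * (G / 2) ≤ 1 + 13100 / K := by
        have u1 : (54 + 20 * 651) / K + 11 / K ≤ 13100 / K := by
          rw [← add_div]
          apply div_le_div_of_nonneg_right _ hK0.le
          norm_num
        linarith
      have t3 : Y ≤ M * lam * ((Y - G) + β / lam * (G / 2)) := by
        have u1 : 1 * (Y - G) ≤ M * lam * (Y - G) :=
          mul_le_mul_of_nonneg_right hM1 (by linarith)
        have u2 : 1 * G ≤ M * (β / 2) * G := mul_le_mul_of_nonneg_right hM2 hG0.le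
        have u3 : M * lam * ((Y - G) + β / lam * (G / 2)) =
            M * lam * (Y - G) + M * (β / 2) * G := by
          field_simp
        rw [u3]
        linarith
      calc Y ≤ M * lam * ((Y - G) + β / lam * (G / 2)) := t3
        _ ≤ M * lam * (1 + 13100 / K) := mul_le_mul_of_nonneg_left t2 (by positivity)
    · have t1 : 2 * (G / 2) ≤ ϱ * (G / 2) := mul_le_mul_of_nonneg_right hc (by positivity)
      have t2 : Y ≤ 1 + 13100 / K := by
        have u1 : (54 + 20 * 651) / K ≤ 13100 / K := by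
          apply div_le_div_of_nonneg_right _ hK0.le
          norm_num
        linarith
      have t3 : 1 * (1 + 13100 / K) ≤ M * lam * (1 + 13100 / K) :=
        mul_le_mul_of_nonneg_right hM1 (by positivity)
      linarith

end Pool.Agent.helper24.CG
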